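import Mathlib

namespace Pool.Agent.Results.MP_08c4cb_co.SpherePacking

open Finset Filter Topology MeasureTheory

attribute [local instance] Classical.propDecidable

/-- The distances between distinct points of `X` are at least one. -/
def Sep {n : ℕ} (X : Finset (EuclideanSpace ℝ (Fin n))) : Prop :=
  ∀ x ∈ X, ∀ y ∈ X, x ≠ y → 1 ≤ dist x y

/-- The cube `[0, L]^n`. -/
def Cube (n : ℕ) (L : ℝ) : Set (EuclideanSpace ℝ (Fin n)) := {x | ∀ i, 0 ≤ x i ∧ x i ≤ L}

/-- The largest number of points of `[0, L]^n` with mutual distances at least one. -/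
noncomputable def P (n : ℕ) (L : ℝ) : ℕ :=
  sSup {k | ∃ X : Finset (EuclideanSpace ℝ (Fin n)), (∀ x ∈ X, x ∈ Cube n L) ∧ Sep X ∧ X.card = k}

/-- The number `f(n)` of the problem. -/
noncomputable def f (n : ℕ) : ℕ := P n 1

lemma one_le_dist_iff {n : ℕ} (x y : EuclideanSpace ℝ (Fin n)) :
    1 ≤ dist x y ↔ 1 ≤ ∑ i, (x i - y i) ^ 2 := by
  rw [EuclideanSpace.dist_eq, Real.one_le_sqrt]
  simp only [Real.dist_eq, sq_abs]

/-! ### volume bound -/

/-- Blichfeldt: few points at mutual distance at least one near a given point -/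
theorem blichfeldt_count {E : Type*} [NormedAddCommGroup E] [InnerProductSpace ℝ E]
    (T : Finset E) (y : E) (r : ℝ) (n : ℕ) (hr : r ^ 2 = (n : ℝ) / (2 * ((n : ℝ) + 1)))
    (hsep : ∀ a ∈ T, ∀ b ∈ T, a ≠ b → 1 ≤ dist a b) (hy : ∀ a ∈ T, dist a y < r) :
    T.card ≤ n + 1 := by
  classical
  rcases Nat.eq_zero_or_pos T.card with h0 | h0
  · omega
  set k : ℝ := (T.card : ℝ) with hk
  have hkpos : 0 < k := by rw [hk]; exact_mod_cast h0
  -- lower bound
  have h1 : k * (k - 1) ≤ ∑ a ∈ T, ∑ b ∈ T, ‖a - b‖ ^ 2 := by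
    have h2 : ∀ a ∈ T, k - 1 ≤ ∑ b ∈ T, ‖a - b‖ ^ 2 := by
      intro a ha
      have h3 : ((T.erase a).card : ℝ) ≤ ∑ b ∈ T.erase a, ‖a - b‖ ^ 2 := by
        have h4 : ∑ b ∈ T.erase a, (1 : ℝ) ≤ ∑ b ∈ T.erase a, ‖a - b‖ ^ 2 := by
          refine Finset.sum_le_sum fun b hb => ?_
          rw [Finset.mem_erase] at hb
          have := hsep a ha b hb.2 hb.1.symm
          rw [dist_eq_norm] at this
          nlinarith
        simpa using h4
      have h5 : ((T.erase a).card : ℝ) = k - 1 := by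
        rw [Finset.card_erase_of_mem ha, hk, Nat.cast_sub h0]
        simp
      rw [h5] at h3
      refine le_trans h3 (Finset.sum_le_sum_of_subset_of_nonneg (Finset.erase_subset _ _) ?_)
      intro b _ _
      positivity
    calc k * (k - 1) = ∑ a ∈ T, (k - 1) := by
          rw [Finset.sum_const, nsmul_eq_mul]
      _ ≤ _ := Finset.sum_le_sum h2
  -- upper bound
  have h6 : ∑ a ∈ T, ∑ b ∈ T, ‖a - b‖ ^ 2 =
      2 * k * ∑ a ∈ T, ‖a - y‖ ^ 2 - 2 * ‖∑ a ∈ T, (a - y)‖ ^ 2 := by
    have h7 : ∀ a b : E, ‖a - b‖ ^ 2 =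
        ‖a - y‖ ^ 2 + ‖b - y‖ ^ 2 - 2 * inner ℝ (a - y) (b - y) := by
      intro a b
      have : a - b = (a - y) - (b - y) := by abel
      rw [this, norm_sub_sq_real]
      ring
    have h8 : ‖∑ a ∈ T, (a - y)‖ ^ 2 = ∑ a ∈ T, ∑ b ∈ T, inner ℝ (a - y) (b - y) := by
      rw [← real_inner_self_eq_norm_sq, sum_inner]
      exact Finset.sum_congr rfl fun a _ => inner_sum _ _ _
    rw [h8]
    rw [Finset.sum_congr rfl fun a _ => Finset.sum_congr rfl fun b _ => h7 a b]
    simp only [Finset.sum_sub_distrib, Finset.sum_add_distrib, Finset.sum_const, nsmul_eq_mul,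
      ← Finset.mul_sum]
    rw [← hk]
    ring
  have h9 : ∑ a ∈ T, ‖a - y‖ ^ 2 ≤ k * r ^ 2 := by
    calc ∑ a ∈ T, ‖a - y‖ ^ 2 ≤ ∑ a ∈ T, r ^ 2 := by
          refine Finset.sum_le_sum fun a ha => ?_
          have := hy a ha
          rw [dist_eq_norm] at this
          have h0' := norm_nonneg (a - y)
          exact pow_le_pow_left₀ h0' this.le 2
      _ = k * r ^ 2 := by rw [Finset.sum_const, nsmul_eq_mul]
  have h10 : k * (k - 1) ≤ 2 * k * (k * r ^ 2) := by
    have h11 : 0 ≤ ‖∑ a ∈ T, (a - y)‖ ^ 2 := by positivity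
    have h12 : 2 * k * ∑ a ∈ T, ‖a - y‖ ^ 2 ≤ 2 * k * (k * r ^ 2) :=
      mul_le_mul_of_nonneg_left h9 (by positivity)
    linarith
  have h13 : k - 1 ≤ 2 * (k * r ^ 2) := by
    have : k * (k - 1) ≤ k * (2 * (k * r ^ 2)) := by linarith
    exact le_of_mul_le_mul_left this hkpos
  rw [hr] at h13
  have hn : (0 : ℝ) < (n : ℝ) + 1 := by positivity
  have h14 : 2 * (k * ((n : ℝ) / (2 * ((n : ℝ) + 1)))) = k * n / ((n : ℝ) + 1) := by
    field_simp
  rw [h14, le_div_iff₀ hn] at h13
  have h15 : k ≤ (n : ℝ) + 1 := by nlinarith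
  have : (T.card : ℝ) ≤ ((n + 1 : ℕ) : ℝ) := by push_cast; exact h15
  exact_mod_cast this

/-- volume of a cube in Euclidean space -/
theorem volume_cube (n : ℕ) (a b : ℝ) (hab : a ≤ b) :
    volume {x : EuclideanSpace ℝ (Fin n) | ∀ i, a ≤ x i ∧ x i ≤ b} = ENNReal.ofReal ((b - a) ^ n) ∧
    MeasurableSet {x : EuclideanSpace ℝ (Fin n) | ∀ i, a ≤ x i ∧ x i ≤ b} := by
  have hS : MeasurableSet (Set.pi Set.univ (fun _ : Fin n => Set.Icc a b)) :=
    MeasurableSet.univ_pi (fun _ => measurableSet_Icc)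
  have he : {x : EuclideanSpace ℝ (Fin n) | ∀ i, a ≤ x i ∧ x i ≤ b} =
      (@WithLp.ofLp 2 (Fin n → ℝ)) ⁻¹' (Set.pi Set.univ (fun _ : Fin n => Set.Icc a b)) := by
    ext x
    simp only [Set.mem_ofPred_eq, Set.mem_preimage, Set.mem_pi, Set.mem_univ, true_imp_iff, Set.mem_Icc]
  have hp := PiLp.volume_preserving_ofLp (Fin n)
  rw [he]
  constructor
  · rw [hp.measure_preimage hS.nullMeasurableSet, volume_pi_pi]
    simp only [Real.volume_Icc, Finset.prod_const, Finset.card_univ, Fintype.card_fin]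
    rw [ENNReal.ofReal_pow (sub_nonneg.2 hab)]
  · exact hp.measurable hS

theorem lg_fact (m : ℕ) (hm : 1 ≤ m) :
    (m : ℝ) * Real.log m - m ≤ Real.log (m.factorial : ℝ) ∧
    Real.log (m.factorial : ℝ) ≤ (m : ℝ) * Real.log m - m + Real.log m + 1 := by
  induction m, hm using Nat.le_induction with
  | base => norm_num
  | succ m hm ih =>
    have hm0 : (0 : ℝ) < m := by exact_mod_cast hm
    have hf : Real.log ((m + 1).factorial : ℝ) = Real.log ((m : ℝ) + 1) +
        Real.log (m.factorial : ℝ) := by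
      rw [Nat.factorial_succ]
      push_cast
      rw [Real.log_mul (by positivity) (by positivity)]
    have h1 : Real.log ((m : ℝ) + 1) - Real.log m ≤ 1 / m := by
      rw [← Real.log_div (by positivity) hm0.ne']
      have h2 := Real.log_le_sub_one_of_pos (show (0 : ℝ) < (m + 1) / m by positivity)
      have h3 : ((m : ℝ) + 1) / m - 1 = 1 / m := by field_simp; ring
      linarith
    have h2 : 1 / ((m : ℝ) + 1) ≤ Real.log ((m : ℝ) + 1) - Real.log m := by
      have h4 := Real.log_le_sub_one_of_pos (show (0 : ℝ) < m / (m + 1) by positivity)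
      rw [Real.log_div hm0.ne' (by positivity)] at h4
      have h3 : (m : ℝ) / (m + 1) - 1 = -(1 / ((m : ℝ) + 1)) := by field_simp; ring
      linarith
    have h5 : (m : ℝ) * (Real.log ((m : ℝ) + 1) - Real.log m) ≤ 1 := by
      calc (m : ℝ) * (Real.log ((m : ℝ) + 1) - Real.log m) ≤ m * (1 / m) :=
            mul_le_mul_of_nonneg_left h1 hm0.le
        _ = 1 := by field_simp
    have h6 : 1 ≤ ((m : ℝ) + 1) * (Real.log ((m : ℝ) + 1) - Real.log m) := by
      calc (1 : ℝ) = ((m : ℝ) + 1) * (1 / ((m : ℝ) + 1)) := by field_simp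
        _ ≤ _ := mul_le_mul_of_nonneg_left h2 (by positivity)
    rw [hf]
    push_cast
    constructor
    · nlinarith [ih.1]
    · nlinarith [ih.2]

/-- Stirling for the Gamma function at half integers, crude form -/
theorem log_Gamma_half : ∃ C : ℝ, 0 < C ∧ ∀ n : ℕ, 1 ≤ n →
    |Real.log (Real.Gamma ((n : ℝ) / 2 + 1)) - ((n : ℝ) / 2 * Real.log ((n : ℝ) / 2) - (n : ℝ) / 2)|
      ≤ C * Real.log ((n : ℝ) + 1) := by
  have hl2 : (0.69 : ℝ) < Real.log 2 := by linarith [Real.log_two_gt_d9]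
  set c1 : ℝ := |Real.log (Real.Gamma (((1 : ℕ) : ℝ) / 2 + 1)) -
    (((1 : ℕ) : ℝ) / 2 * Real.log (((1 : ℕ) : ℝ) / 2) - ((1 : ℕ) : ℝ) / 2)| with hc1
  have hc10 : 0 ≤ c1 := abs_nonneg _
  refine ⟨4 + c1 / Real.log 2, by positivity, ?_⟩
  intro n hn
  have hlog : Real.log 2 ≤ Real.log ((n : ℝ) + 1) := by
    apply Real.log_le_log (by norm_num)
    have : (1 : ℝ) ≤ n := by exact_mod_cast hn
    linarith
  have hq : 0 ≤ c1 / Real.log 2 := by positivity
  rcases Nat.lt_or_ge n 2 with h2 | h2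
  · have hn1 : n = 1 := by omega
    rw [hn1, ← hc1]
    rw [hn1] at hlog
    have h3 : c1 = c1 / Real.log 2 * Real.log 2 := by field_simp
    have h4 : c1 / Real.log 2 * Real.log 2 ≤ c1 / Real.log 2 * Real.log (((1 : ℕ) : ℝ) + 1) :=
      mul_le_mul_of_nonneg_left hlog hq
    nlinarith
  · set m := n / 2 with hm
    set x : ℝ := (n : ℝ) / 2 with hx
    have hm1 : 1 ≤ m := by omega
    have hmR : (1 : ℝ) ≤ m := by exact_mod_cast hm1
    have hmx : (m : ℝ) ≤ x := by
      have : 2 * m ≤ n := by omega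
      have h3 : (2 : ℝ) * m ≤ n := by exact_mod_cast this
      rw [hx]; linarith
    have hxm : x ≤ m + 1 := by
      have : n ≤ 2 * (m + 1) := by omega
      have h3 : (n : ℝ) ≤ 2 * (m + 1) := by exact_mod_cast this
      rw [hx]; linarith
    have hx0 : 0 < x := by linarith
    have hm0 : (0 : ℝ) < m := by linarith
    -- Gamma bounds
    have hG1 : (m.factorial : ℝ) ≤ Real.Gamma (x + 1) := by
      rw [← Real.Gamma_nat_eq_factorial]
      exact Real.Gamma_strictMonoOn_Ici.monotoneOn (by simp only [Set.mem_Ici]; linarith)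
        (by simp only [Set.mem_Ici]; linarith) (by linarith)
    have hG2 : Real.Gamma (x + 1) ≤ ((m + 1).factorial : ℝ) := by
      rw [← Real.Gamma_nat_eq_factorial]
      push_cast
      exact Real.Gamma_strictMonoOn_Ici.monotoneOn (by simp only [Set.mem_Ici]; linarith)
        (by simp only [Set.mem_Ici]; linarith) (by linarith)
    have hfp : (0 : ℝ) < m.factorial := by exact_mod_cast Nat.factorial_pos m
    have hL1 := Real.log_le_log hfp hG1
    have hL2 := Real.log_le_log (lt_of_lt_of_le hfp hG1) hG2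
    have hf : Real.log ((m + 1).factorial : ℝ) = Real.log ((m : ℝ) + 1) +
        Real.log (m.factorial : ℝ) := by
      rw [Nat.factorial_succ]
      push_cast
      rw [Real.log_mul (by positivity) (by positivity)]
    rw [hf] at hL2
    obtain ⟨hF1, hF2⟩ := lg_fact m hm1
    -- compare f(x) and f(m)
    have ha : Real.log x - Real.log m ≤ (x - m) / m := by
      rw [← Real.log_div hx0.ne' hm0.ne']
      have h3 := Real.log_le_sub_one_of_pos (show (0 : ℝ) < x / m by positivity)
      have h4 : x / m - 1 = (x - m) / m := by field_simp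
      linarith
    have hb : (x - m) / x ≤ Real.log x - Real.log m := by
      have h3 := Real.log_le_sub_one_of_pos (show (0 : ℝ) < m / x by positivity)
      rw [Real.log_div hm0.ne' hx0.ne'] at h3
      have h4 : (m : ℝ) / x - 1 = -((x - m) / x) := by field_simp; ring
      linarith
    have hlogx : 1 - 1 / x ≤ Real.log x := by
      have h3 := Real.log_le_sub_one_of_pos (show (0 : ℝ) < 1 / x by positivity)
      rw [Real.log_div one_ne_zero hx0.ne', Real.log_one] at h3
      linarith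
    have hma : (m : ℝ) * (Real.log x - Real.log m) ≤ x - m := by
      calc (m : ℝ) * (Real.log x - Real.log m) ≤ m * ((x - m) / m) :=
            mul_le_mul_of_nonneg_left ha hm0.le
        _ = x - m := by field_simp
    have hup : x * Real.log x - x ≤ (m : ℝ) * Real.log m - m + (x - m) * Real.log x := by
      nlinarith
    have hlx0 : 0 ≤ Real.log x := Real.log_nonneg (by linarith)
    have hlxm : Real.log x ≤ Real.log ((m : ℝ) + 1) := Real.log_le_log hx0 hxm
    have hup2 : (x - m) * Real.log x ≤ Real.log ((m : ℝ) + 1) := by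
      have : (x - m) * Real.log x ≤ 1 * Real.log x :=
        mul_le_mul_of_nonneg_right (by linarith) hlx0
      linarith
    have hlo : (m : ℝ) * Real.log m - m ≤ x * Real.log x - x := by
      have h3 : (x - m) * (Real.log x + m / x) ≥ (x - m) * 1 := by
        apply mul_le_mul_of_nonneg_left _ (by linarith)
        have h4 : 1 / x ≤ m / x := div_le_div_of_nonneg_right hmR hx0.le
        linarith
      have h5 : (m : ℝ) * ((x - m) / x) ≤ m * (Real.log x - Real.log m) :=
        mul_le_mul_of_nonneg_left hb hm0.le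
      have h6 : (m : ℝ) * ((x - m) / x) = (x - m) * (m / x) := by ring
      nlinarith
    have hmn : Real.log ((m : ℝ) + 1) ≤ Real.log ((n : ℝ) + 1) := by
      apply Real.log_le_log (by positivity)
      have : m ≤ n := by omega
      have h3 : (m : ℝ) ≤ n := by exact_mod_cast this
      linarith
    have hlm : Real.log m ≤ Real.log ((m : ℝ) + 1) := Real.log_le_log hm0 (by linarith)
    have hN : 0 ≤ Real.log ((n : ℝ) + 1) := by linarith
    have hfin : 4 * Real.log ((n : ℝ) + 1) ≤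
        (4 + c1 / Real.log 2) * Real.log ((n : ℝ) + 1) := by
      apply mul_le_mul_of_nonneg_right _ hN
      linarith
    refine le_trans ?_ hfin
    rw [abs_le]
    constructor <;> linarith

/-- volume of the unit ball -/
noncomputable def om (n : ℕ) : ℝ := Real.sqrt Real.pi ^ n / Real.Gamma ((n : ℝ) / 2 + 1)

lemma om_pos (n : ℕ) : 0 < om n := by
  rw [om]
  have h1 : 0 < Real.sqrt Real.pi := Real.sqrt_pos.2 Real.pi_pos
  have h2 : 0 < Real.Gamma ((n : ℝ) / 2 + 1) := Real.Gamma_pos_of_pos (by positivity)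
  positivity

lemma volume_ball_eq {n : ℕ} (hn : 1 ≤ n) (x : EuclideanSpace ℝ (Fin n)) {r : ℝ} (hr : 0 ≤ r) :
    volume (Metric.ball x r) = ENNReal.ofReal (r ^ n * om n) := by
  have : Nonempty (Fin n) := ⟨⟨0, hn⟩⟩
  rw [EuclideanSpace.volume_ball, Fintype.card_fin, ← ENNReal.ofReal_pow hr,
    ← ENNReal.ofReal_mul (pow_nonneg hr _)]
  rfl

lemma card_le {n : ℕ} (hn : 1 ≤ n) {L : ℝ} (hL : 0 ≤ L) {X : Finset (EuclideanSpace ℝ (Fin n))}
    (hX : ∀ x ∈ X, x ∈ Cube n L) (hS : Sep X) :
    (X.card : ℝ) * (Real.sqrt ((n : ℝ) / (2 * ((n : ℝ) + 1))) ^ n * om n) ≤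
      ((n : ℝ) + 1) * (L + 2) ^ n := by
  set r := Real.sqrt ((n : ℝ) / (2 * ((n : ℝ) + 1))) with hr
  have hr0 : 0 ≤ r := Real.sqrt_nonneg _
  have hr2 : r ^ 2 = (n : ℝ) / (2 * ((n : ℝ) + 1)) := Real.sq_sqrt (by positivity)
  have hr1 : r ≤ 1 := by
    rw [hr, Real.sqrt_le_iff]
    refine ⟨by norm_num, ?_⟩
    rw [div_le_iff₀ (by positivity)]
    have : (0 : ℝ) ≤ n := Nat.cast_nonneg _
    linarith
  set B : Set (EuclideanSpace ℝ (Fin n)) := {x | ∀ i, -1 ≤ x i ∧ x i ≤ L + 1} with hB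
  obtain ⟨hBv, hBm⟩ := volume_cube n (-1) (L + 1) (by linarith)
  have hBv' : volume B = ENNReal.ofReal ((L + 2) ^ n) := by
    rw [hB, hBv]; congr 2; ring
  have hsum : ∑ x ∈ X, volume (Metric.ball x r) ≤ ENNReal.ofReal ((n : ℝ) + 1) * volume B := by
    calc ∑ x ∈ X, volume (Metric.ball x r)
        = ∑ x ∈ X, ∫⁻ y, (Metric.ball x r).indicator (fun _ => (1 : ENNReal)) y := by
          refine Finset.sum_congr rfl (fun x _ => ?_)
          rw [lintegral_indicator_const Metric.isOpen_ball.measurableSet, one_mul]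
      _ = ∫⁻ y, ∑ x ∈ X, (Metric.ball x r).indicator (fun _ => (1 : ENNReal)) y := by
          rw [lintegral_finsetSum']
          intro x _
          exact (measurable_const.indicator Metric.isOpen_ball.measurableSet).aemeasurable
      _ ≤ ∫⁻ y, B.indicator (fun _ => ENNReal.ofReal ((n : ℝ) + 1)) y := by
          refine lintegral_mono (fun y => ?_)
          have hc : ∑ x ∈ X, (Metric.ball x r).indicator (fun _ => (1 : ENNReal)) y =
              ((X.filter (fun x => dist x y < r)).card : ENNReal) := by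
            rw [Finset.card_filter]
            push_cast
            refine Finset.sum_congr rfl (fun x _ => ?_)
            rw [Set.indicator_apply]
            simp only [Metric.mem_ball]
            rw [dist_comm]
          rw [hc]
          by_cases hy : y ∈ B
          · rw [Set.indicator_of_mem hy]
            have h1 := blichfeldt_count (X.filter (fun x => dist x y < r)) y r n hr2
              (fun a ha b hb hab => hS a (Finset.mem_filter.1 ha).1 b (Finset.mem_filter.1 hb).1 hab)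
              (fun a ha => (Finset.mem_filter.1 ha).2)
            have h2 : ENNReal.ofReal ((n : ℝ) + 1) = ((n + 1 : ℕ) : ENNReal) := by
              rw [← ENNReal.ofReal_natCast]; push_cast; rfl
            rw [h2]
            exact Nat.cast_le.2 h1
          · rw [Set.indicator_of_notMem hy]
            simp only [nonpos_iff_eq_zero, Nat.cast_eq_zero, Finset.card_eq_zero]
            rw [Finset.filter_eq_empty_iff]
            intro x hx hxy
            apply hy
            intro i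
            have h1 := hX x hx i
            have h2 : |x i - y i| ≤ dist x y := by
              rw [EuclideanSpace.dist_eq]
              apply Real.abs_le_sqrt
              have := Finset.single_le_sum (f := fun j => dist (x j) (y j) ^ 2)
                (fun j _ => by positivity) (Finset.mem_univ i)
              simpa [Real.dist_eq, sq_abs] using this
            have h3 := abs_le.1 (h2.trans (hxy.le.trans hr1))
            constructor <;> linarith [h3.1, h3.2, h1.1, h1.2]
      _ = _ := by rw [lintegral_indicator_const hBm]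
  have h1 : ∑ x ∈ X, volume (Metric.ball x r) = ENNReal.ofReal (X.card * (r ^ n * om n)) := by
    rw [Finset.sum_congr rfl (fun x _ => volume_ball_eq hn x hr0), Finset.sum_const, nsmul_eq_mul,
      ENNReal.ofReal_mul (p := (X.card : ℝ)) (by positivity), ENNReal.ofReal_natCast]
  rw [h1, hBv', ← ENNReal.ofReal_mul (by positivity)] at hsum
  have h3 : (0 : ℝ) ≤ ((n : ℝ) + 1) * (L + 2) ^ n := by positivity
  exact (ENNReal.ofReal_le_ofReal_iff h3).1 hsum

lemma P_bdd {n : ℕ} (hn : 1 ≤ n) {L : ℝ} (hL : 0 ≤ L) :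
    BddAbove {k | ∃ X : Finset (EuclideanSpace ℝ (Fin n)),
      (∀ x ∈ X, x ∈ Cube n L) ∧ Sep X ∧ X.card = k} := by
  set r := Real.sqrt ((n : ℝ) / (2 * ((n : ℝ) + 1))) with hr
  have hn' : (0 : ℝ) < n := by exact_mod_cast hn
  have hr0 : 0 < r := Real.sqrt_pos.2 (by positivity)
  have hpos : 0 < r ^ n * om n := mul_pos (pow_pos hr0 _) (om_pos n)
  refine ⟨⌈((n : ℝ) + 1) * (L + 2) ^ n / (r ^ n * om n)⌉₊, ?_⟩
  rintro k ⟨X, hX, hS, rfl⟩
  have h := card_le hn hL hX hS
  rw [← hr] at h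
  have h2 : (X.card : ℝ) ≤ ((n : ℝ) + 1) * (L + 2) ^ n / (r ^ n * om n) := by
    rw [le_div_iff₀ hpos]; exact h
  exact_mod_cast h2.trans (Nat.le_ceil _)

lemma le_P {n : ℕ} (hn : 1 ≤ n) {L : ℝ} (hL : 0 ≤ L) {X : Finset (EuclideanSpace ℝ (Fin n))}
    (hX : ∀ x ∈ X, x ∈ Cube n L) (hS : Sep X) : X.card ≤ P n L :=
  le_csSup (P_bdd hn hL) ⟨X, hX, hS, rfl⟩

lemma exists_P {n : ℕ} (hn : 1 ≤ n) {L : ℝ} (hL : 0 ≤ L) :
    ∃ X : Finset (EuclideanSpace ℝ (Fin n)), (∀ x ∈ X, x ∈ Cube n L) ∧ Sep X ∧ X.card = P n L := by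
  have hne : {k | ∃ X : Finset (EuclideanSpace ℝ (Fin n)),
      (∀ x ∈ X, x ∈ Cube n L) ∧ Sep X ∧ X.card = k}.Nonempty :=
    ⟨0, ∅, by simp, by simp [Sep], by simp⟩
  exact Nat.sSup_mem hne (P_bdd hn hL)

lemma P_mono {n : ℕ} (hn : 1 ≤ n) {L M : ℝ} (hL : 0 ≤ L) (h : L ≤ M) : P n L ≤ P n M := by
  obtain ⟨X, hX, hS, hc⟩ := exists_P hn hL
  rw [← hc]
  exact le_P hn (hL.trans h) (fun x hx i => ⟨(hX x hx i).1, (hX x hx i).2.trans h⟩) hS

/-- lower bound by covering -/
lemma one_le_f_mul {n : ℕ} (hn : 1 ≤ n) : 1 ≤ (f n : ℝ) * om n := by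
  obtain ⟨X, hX, hS, hc⟩ := exists_P hn (L := 1) (by norm_num)
  have hcov : Cube n 1 ⊆ ⋃ x ∈ X, Metric.ball x 1 := by
    intro y hy
    by_contra hcon
    simp only [Set.mem_iUnion, Metric.mem_ball, not_exists, not_lt] at hcon
    have hyX : y ∉ X := fun h => by
      have := hcon y h
      rw [dist_self] at this
      linarith
    have h1 : (insert y X).card ≤ P n 1 := by
      apply le_P hn (by norm_num)
      · intro x hx
        rcases Finset.mem_insert.1 hx with rfl | hx
        · exact hy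
        · exact hX x hx
      · intro a ha b hb hab
        rcases Finset.mem_insert.1 ha with ha' | ha'
        · rcases Finset.mem_insert.1 hb with hb' | hb'
          · exact absurd (ha'.trans hb'.symm) hab
          · rw [ha']; exact hcon b hb'
        · rcases Finset.mem_insert.1 hb with hb' | hb'
          · rw [hb', dist_comm]; exact hcon a ha'
          · exact hS a ha' b hb' hab
    rw [Finset.card_insert_of_notMem hyX] at h1
    omega
  have h1 : volume (Cube n 1) = 1 := by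
    have := (volume_cube n 0 1 (by norm_num)).1
    simpa [Cube] using this
  have h2 : volume (Cube n 1) ≤ ∑ x ∈ X, volume (Metric.ball x 1) :=
    (measure_mono hcov).trans (measure_biUnion_finset_le X _)
  rw [h1, Finset.sum_congr rfl (fun x _ => volume_ball_eq hn x zero_le_one), Finset.sum_const,
    nsmul_eq_mul, one_pow, one_mul, ← ENNReal.ofReal_natCast,
    ← ENNReal.ofReal_mul (Nat.cast_nonneg _), ENNReal.one_le_ofReal, hc] at h2
  exact h2

/-! ### subadditivity and the limit density -/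

lemma P_mul_le {n : ℕ} (hn : 1 ≤ n) {L : ℝ} (hL : 0 < L) {k : ℕ} (hk : 1 ≤ k) :
    P n (k * L) ≤ k ^ n * P n L := by
  have hkL : (0 : ℝ) ≤ k * L := by positivity
  obtain ⟨X, hX, hS, hc⟩ := exists_P hn hkL
  rw [← hc]
  let cell : EuclideanSpace ℝ (Fin n) → (Fin n → Fin k) :=
    fun x i => ⟨min ⌊x i / L⌋₊ (k - 1), by omega⟩
  have h := Finset.card_le_mul_card_image_of_maps_to (s := X)
    (t := (Finset.univ : Finset (Fin n → Fin k))) (f := cell) (fun _ _ => Finset.mem_univ _)
    (P n L) ?_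
  · have h2 : (Finset.univ : Finset (Fin n → Fin k)).card = k ^ n := by simp
    rw [h2] at h
    rw [mul_comm]; exact h
  · intro b _
    set Y := X.filter (fun x => cell x = b) with hY
    set sh : EuclideanSpace ℝ (Fin n) := WithLp.toLp 2 (fun i => ((b i : ℕ) : ℝ) * L) with hsh
    have hcard : (Y.image (fun x => x - sh)).card = Y.card :=
      Finset.card_image_of_injective _ (sub_left_injective)
    rw [← hcard]
    apply le_P hn hL.le
    · intro y hy
      obtain ⟨x, hx, rfl⟩ := Finset.mem_image.1 hy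
      have hx' := Finset.mem_filter.1 hx
      intro i
      have h1 := hX x hx'.1 i
      have h2 : min ⌊x i / L⌋₊ (k - 1) = (b i : ℕ) := by
        have := congrFun hx'.2 i
        exact congrArg Fin.val this
      have h3 : (x - sh) i = x i - ((b i : ℕ) : ℝ) * L := by
        simp [hsh]
      rw [h3]
      have h4 : ((⌊x i / L⌋₊ : ℕ) : ℝ) ≤ x i / L := Nat.floor_le (div_nonneg h1.1 hL.le)
      have h5 : x i / L < (⌊x i / L⌋₊ : ℕ) + 1 := Nat.lt_floor_add_one _
      rw [le_div_iff₀ hL] at h4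
      rw [div_lt_iff₀ hL] at h5
      constructor
      · have h6 : ((b i : ℕ) : ℝ) ≤ (⌊x i / L⌋₊ : ℕ) := by
          have : (b i : ℕ) ≤ ⌊x i / L⌋₊ := by omega
          exact_mod_cast this
        have := mul_le_mul_of_nonneg_right h6 hL.le
        linarith
      · rcases Nat.le_total ⌊x i / L⌋₊ (k - 1) with h6 | h6
        · have h7 : (b i : ℕ) = ⌊x i / L⌋₊ := by omega
          rw [h7]; linarith
        · have h7 : (b i : ℕ) = k - 1 := by omega
          rw [h7, Nat.cast_sub hk]
          push_cast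
          linarith [h1.2]
    · intro a ha b' hb hab
      obtain ⟨x, hx, rfl⟩ := Finset.mem_image.1 ha
      obtain ⟨y, hy, rfl⟩ := Finset.mem_image.1 hb
      rw [dist_sub_right]
      exact hS x (Finset.mem_filter.1 hx).1 y (Finset.mem_filter.1 hy).1 (fun h => hab (by rw [h]))

lemma exists_dens {n : ℕ} (hn : 1 ≤ n) :
    ∃ D : ℝ, Tendsto (fun L : ℝ => (P n L : ℝ) / L ^ n) atTop (𝓝 D) ∧
      (∀ L : ℝ, 0 < L → D ≤ (P n L : ℝ) / L ^ n) := by
  set S : Set ℝ := (fun L : ℝ => (P n L : ℝ) / L ^ n) '' Set.Ioi 0 with hS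
  have hbdd : BddBelow S := by
    refine ⟨0, ?_⟩
    rintro _ ⟨L, hL, rfl⟩
    have : (0 : ℝ) < L := hL
    positivity
  have hne : S.Nonempty := ⟨_, 1, by norm_num, rfl⟩
  have hle : ∀ L : ℝ, 0 < L → sInf S ≤ (P n L : ℝ) / L ^ n := fun L hL => csInf_le hbdd ⟨L, hL, rfl⟩
  refine ⟨sInf S, ?_, hle⟩
  rw [tendsto_order]
  constructor
  · intro a ha
    filter_upwards [eventually_gt_atTop 0] with L hL
    exact lt_of_lt_of_le ha (hle L hL)
  · intro a ha
    obtain ⟨_, ⟨L0, hL0, rfl⟩, hq⟩ := exists_lt_of_csInf_lt hne ha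
    have hL0' : (0 : ℝ) < L0 := hL0
    simp only at hq
    set q := (P n L0 : ℝ) / L0 ^ n with hqdef
    have hq0 : 0 ≤ q := by positivity
    have hlim : Tendsto (fun L : ℝ => (1 + L0 / L) ^ n * q) atTop (𝓝 ((1 + 0) ^ n * q)) := by
      apply Tendsto.mul_const
      apply Tendsto.pow
      apply Tendsto.const_add
      exact tendsto_const_nhds.div_atTop tendsto_id
    have hlim' : Tendsto (fun L : ℝ => (1 + L0 / L) ^ n * q) atTop (𝓝 q) := by
      simpa using hlim
    filter_upwards [hlim'.eventually (gt_mem_nhds hq), eventually_gt_atTop 0] with L hL1 hL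
    refine lt_of_le_of_lt ?_ hL1
    set k := ⌈L / L0⌉₊ with hk
    have hk1 : 1 ≤ k := by
      rw [hk, Nat.one_le_ceil_iff]; positivity
    have hk2 : L / L0 ≤ k := Nat.le_ceil _
    have hk3 : (k : ℝ) < L / L0 + 1 := Nat.ceil_lt_add_one (by positivity)
    have h1 : P n L ≤ k ^ n * P n L0 :=
      (P_mono hn hL.le (by rw [div_le_iff₀ hL0'] at hk2; exact hk2)).trans (P_mul_le hn hL0' hk1)
    have h2 : (P n L : ℝ) ≤ (k : ℝ) ^ n * P n L0 := by exact_mod_cast h1
    have h3 : (k : ℝ) ≤ (1 + L0 / L) * (L / L0) := by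
      have : (1 + L0 / L) * (L / L0) = L / L0 + 1 := by field_simp
      rw [this]; exact hk3.le
    rw [div_le_iff₀ (by positivity)]
    calc (P n L : ℝ) ≤ (k : ℝ) ^ n * P n L0 := h2
      _ ≤ ((1 + L0 / L) * (L / L0)) ^ n * P n L0 :=
          mul_le_mul_of_nonneg_right (pow_le_pow_left₀ (Nat.cast_nonneg _) h3 n)
            (Nat.cast_nonneg _)
      _ = (1 + L0 / L) ^ n * q * L ^ n := by
          rw [hqdef, mul_pow, div_pow]; ring

/-! ### placing translates of the cube along a code -/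

lemma sq_far {a b s : ℝ} (ha : 0 ≤ a ∧ a ≤ 1) (hb : 0 ≤ b ∧ b ≤ 1) (hs : 1 ≤ s) {m : ℤ}
    (hm : m ≠ 0) : (s - 1) ^ 2 ≤ (a - b + s * m) ^ 2 := by
  rcases lt_or_gt_of_ne hm with h | h
  · have h1 : (m : ℝ) ≤ -1 := by exact_mod_cast (by omega : m ≤ -1)
    have h2 : s * m ≤ s * (-1) := mul_le_mul_of_nonneg_left h1 (by linarith)
    have h3 : s - 1 ≤ -(a - b + s * m) := by linarith [ha.1, ha.2, hb.1, hb.2]
    have h4 := pow_le_pow_left₀ (by linarith) h3 2
    rwa [neg_sq] at h4
  · have h1 : (1 : ℝ) ≤ m := by exact_mod_cast (by omega : 1 ≤ m)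
    have h2 : s * 1 ≤ s * m := mul_le_mul_of_nonneg_left h1 (by linarith)
    have h3 : s - 1 ≤ a - b + s * m := by linarith [ha.1, ha.2, hb.1, hb.2]
    exact pow_le_pow_left₀ (by linarith) h3 2

lemma sq_far2 {a b s : ℝ} (ha : 0 ≤ a ∧ a ≤ 1) (hb : 0 ≤ b ∧ b ≤ 1) (hs : 1 ≤ s) {m : ℤ}
    (hm : 2 ≤ |m|) : 1 ≤ (a - b + s * m) ^ 2 := by
  rcases le_abs.1 hm with h | h
  · have h1 : (2 : ℝ) ≤ m := by exact_mod_cast h
    have h2 : s * 2 ≤ s * m := mul_le_mul_of_nonneg_left h1 (by linarith)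
    have h3 : 1 ≤ a - b + s * m := by linarith [ha.1, ha.2, hb.1, hb.2]
    have h4 := pow_le_pow_left₀ (by norm_num) h3 2
    rwa [one_pow] at h4
  · have h1 : (m : ℝ) ≤ -2 := by exact_mod_cast (by omega : m ≤ -2)
    have h2 : s * m ≤ s * (-2) := mul_le_mul_of_nonneg_left h1 (by linarith)
    have h3 : 1 ≤ -(a - b + s * m) := by linarith [ha.1, ha.2, hb.1, hb.2]
    have h4 := pow_le_pow_left₀ (by norm_num) h3 2
    rwa [one_pow, neg_sq] at h4

/-- integer coordinates of the translates -/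
def vz {n K : ℕ} (c : Fin n → Bool) (w : Fin n → Fin K) (i : Fin n) : ℤ :=
  2 * (w i : ℕ) + (if c i then 1 else 0)

/-- the placed points -/
noncomputable def place {n K : ℕ} (s : ℝ)
    (p : (Fin n → Bool) × (Fin n → Fin K) × EuclideanSpace ℝ (Fin n)) :
    EuclideanSpace ℝ (Fin n) :=
  WithLp.toLp 2 (fun i => p.2.2 i + s * (vz p.1 p.2.1 i : ℝ))

lemma P_code {n d K : ℕ} (hn : 1 ≤ n) (C : Finset (Fin n → Bool))
    (hC : ∀ x ∈ C, ∀ y ∈ C, x ≠ y → d ≤ hammingDist x y) {s : ℝ} (hs : 1 ≤ s)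
    (hd : 1 ≤ (d : ℝ) * (s - 1) ^ 2) (hK : 1 ≤ K) :
    C.card * K ^ n * f n ≤ P n (2 * K * s) := by
  obtain ⟨X, hX, hS, hc⟩ := exists_P hn (L := 1) (by norm_num)
  set I := C ×ˢ ((Finset.univ : Finset (Fin n → Fin K)) ×ˢ X) with hI
  have hIcard : I.card = C.card * K ^ n * f n := by
    rw [hI, Finset.card_product, Finset.card_product, hc, f]
    simp
    ring
  have hfar : ∀ p ∈ I, ∀ q ∈ I, p ≠ q → 1 ≤ dist (place s p) (place s q) := by
    rintro ⟨c, w, x⟩ hp ⟨c', w', x'⟩ hq hne
    simp only [hI, Finset.mem_product, Finset.mem_univ, true_and] at hp hq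
    rw [one_le_dist_iff]
    have hterm : ∀ i, (place s (c, w, x) i - place s (c', w', x') i) =
        x i - x' i + s * ((vz c w i - vz c' w' i : ℤ) : ℝ) := by
      intro i
      simp only [place]
      push_cast
      ring
    simp only [hterm]
    have hxi := fun i => hX x hp.2 i
    have hxi' := fun i => hX x' hq.2 i
    by_cases hcc : c = c'
    · subst hcc
      by_cases hww : w = w'
      · subst hww
        have hxx : x ≠ x' := fun h => hne (by rw [h])
        have h1 := (one_le_dist_iff x x').1 (hS x hp.2 x' hq.2 hxx)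
        simpa using h1
      · obtain ⟨i, hi⟩ := Function.ne_iff.1 hww
        have h2 : 2 ≤ |vz c w i - vz c w' i| := by
          have h3 : (w i : ℕ) ≠ (w' i : ℕ) := fun h => hi (Fin.ext h)
          have h4 : vz c w i - vz c w' i = 2 * (((w i : ℕ) : ℤ) - (w' i : ℕ)) := by
            rw [vz, vz]; ring
          rw [h4, abs_mul]
          have h5 : 1 ≤ |((w i : ℕ) : ℤ) - (w' i : ℕ)| := by
            apply Int.one_le_abs
            omega
          norm_num
          omega
        have h3 := sq_far2 (hxi i) (hxi' i) hs h2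
        refine h3.trans ?_
        exact Finset.single_le_sum
          (f := fun i => (x i - x' i + s * ((vz c w i - vz c w' i : ℤ) : ℝ)) ^ 2)
          (fun j _ => sq_nonneg _) (Finset.mem_univ i)
    · have h1 := hC c hp.1 c' hq.1 hcc
      calc (1 : ℝ) ≤ (d : ℝ) * (s - 1) ^ 2 := hd
        _ ≤ (hammingDist c c' : ℝ) * (s - 1) ^ 2 :=
            mul_le_mul_of_nonneg_right (by exact_mod_cast h1) (sq_nonneg _)
        _ = ∑ i ∈ Finset.univ.filter (fun i => c i ≠ c' i), (s - 1) ^ 2 := by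
            rw [Finset.sum_const, nsmul_eq_mul]
            rfl
        _ ≤ ∑ i ∈ Finset.univ.filter (fun i => c i ≠ c' i),
              (x i - x' i + s * ((vz c w i - vz c' w' i : ℤ) : ℝ)) ^ 2 := by
            refine Finset.sum_le_sum (fun i hi => sq_far (hxi i) (hxi' i) hs ?_)
            have hci := (Finset.mem_filter.1 hi).2
            rw [vz, vz]
            cases h5 : c i <;> cases h6 : c' i
            · exact absurd (h5.trans h6.symm) hci
            · simp; omega
            · simp; omega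
            · exact absurd (h5.trans h6.symm) hci
        _ ≤ ∑ i, (x i - x' i + s * ((vz c w i - vz c' w' i : ℤ) : ℝ)) ^ 2 :=
            Finset.sum_le_sum_of_subset_of_nonneg (Finset.filter_subset _ _)
              (fun _ _ _ => sq_nonneg _)
  have hinj : Set.InjOn (place (n := n) (K := K) s) (I : Set ((Fin n → Bool) × (Fin n → Fin K) ×
      EuclideanSpace ℝ (Fin n))) := by
    intro p hp q hq hpq
    by_contra hne
    have := hfar p hp q hq hne
    rw [hpq, dist_self] at this
    linarith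
  rw [← hIcard, ← Finset.card_image_of_injOn hinj]
  apply le_P hn (by positivity)
  · intro y hy
    obtain ⟨⟨c, w, x⟩, hp, rfl⟩ := Finset.mem_image.1 hy
    simp only [hI, Finset.mem_product, Finset.mem_univ, true_and] at hp
    intro i
    have h1 := hX x hp.2 i
    have h2 : (0 : ℝ) ≤ (vz c w i : ℝ) ∧ (vz c w i : ℝ) ≤ 2 * K - 1 := by
      have h3 : 0 ≤ vz c w i ∧ vz c w i ≤ 2 * K - 1 := by
        have := (w i).2
        rw [vz]
        split_ifs <;> constructor <;> omega
      exact ⟨by exact_mod_cast h3.1, by exact_mod_cast h3.2⟩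
    have h4 : place s (c, w, x) i = x i + s * (vz c w i : ℝ) := by simp [place]
    rw [h4]
    constructor
    · nlinarith [h1.1, h2.1]
    · nlinarith [h1.2, h2.2]
  · intro a ha b hb hab
    obtain ⟨p, hp, rfl⟩ := Finset.mem_image.1 ha
    obtain ⟨q, hq, rfl⟩ := Finset.mem_image.1 hb
    exact hfar p hp q hq (fun h => hab (by rw [h]))

/-- binary codes of distance `d` (Gilbert bound, crude form) -/
theorem exists_code (n d : ℕ) (hd : 1 ≤ d) :
    ∃ C : Finset (Fin n → Bool), (∀ x ∈ C, ∀ y ∈ C, x ≠ y → d ≤ hammingDist x y) ∧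
      2 ^ n ≤ C.card * (n + 1) ^ (d - 1) := by
  classical
  let p : Finset (Fin n → Bool) → Prop := fun C => ∀ x ∈ C, ∀ y ∈ C, x ≠ y → d ≤ hammingDist x y
  obtain ⟨C, -, hC⟩ : ∃ C, (∅ : Finset (Fin n → Bool)) ≤ C ∧ Maximal p C :=
    Set.Finite.exists_le_maximal (s := {C | p C}) (Set.toFinite _) (by
      intro x hx; simp at hx)
  refine ⟨C, hC.1, ?_⟩
  have hcov : ∀ z : Fin n → Bool, ∃ c ∈ C, hammingDist z c < d := by
    intro z
    by_contra h
    push Not at h
    have hz : z ∉ C := by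
      intro hz
      have := h z hz
      simp at this
      omega
    have hp : p (insert z C) := by
      intro x hx y hy hxy
      rcases Finset.mem_insert.1 hx with hx' | hx'
      · rcases Finset.mem_insert.1 hy with hy' | hy'
        · exact absurd (hx'.trans hy'.symm) hxy
        · rw [hx']; exact h y hy'
      · rcases Finset.mem_insert.1 hy with hy' | hy'
        · rw [hammingDist_comm, hy']; exact h x hx'
        · exact hC.1 x hx' y hy' hxy
    have := hC.2 hp (Finset.subset_insert z C)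
    exact hz (this (Finset.mem_insert_self z C))
  have hball : ∀ c : Fin n → Bool,
      (Finset.univ.filter (fun z : Fin n → Bool => hammingDist z c < d)).card ≤ (n + 1) ^ (d - 1) := by
    intro c
    let F : (Fin (d - 1) → Option (Fin n)) → (Fin n → Bool) := fun φ i =>
      if ∃ j, φ j = some i then !(c i) else c i
    have hsub : (Finset.univ.filter (fun z : Fin n → Bool => hammingDist z c < d)) ⊆
        Finset.univ.image F := by
      intro z hz
      rw [Finset.mem_filter] at hz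
      rw [Finset.mem_image]
      set D : Finset (Fin n) := Finset.univ.filter (fun i => z i ≠ c i) with hD
      have hcard : D.card ≤ d - 1 := by
        have : D.card = hammingDist z c := rfl
        omega
      let e := D.equivFin
      refine ⟨fun j => if h : j.1 < D.card then some ((e.symm ⟨j.1, h⟩ : D) : Fin n) else none,
        Finset.mem_univ _, ?_⟩
      funext i
      simp only [F]
      by_cases hi : z i = c i
      · rw [if_neg, hi]
        rintro ⟨j, hj⟩
        by_cases h : j.1 < D.card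
        · rw [dif_pos h] at hj
          have h1 := (e.symm ⟨j.1, h⟩).2
          rw [Option.some_inj] at hj
          rw [hj, hD, Finset.mem_filter] at h1
          exact h1.2 hi
        · rw [dif_neg h] at hj
          exact absurd hj (by simp)
      · have hiD : i ∈ D := by rw [hD, Finset.mem_filter]; exact ⟨Finset.mem_univ _, hi⟩
        rw [if_pos]
        · cases h1 : z i <;> cases h2 : c i <;> simp_all
        · have hlt : ((e ⟨i, hiD⟩ : Fin D.card) : ℕ) < d - 1 := lt_of_lt_of_le (e ⟨i, hiD⟩).2 hcard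
          refine ⟨⟨(e ⟨i, hiD⟩ : Fin D.card), hlt⟩, ?_⟩
          rw [dif_pos (e ⟨i, hiD⟩).2]
          simp
    calc _ ≤ (Finset.univ.image F).card := Finset.card_le_card hsub
      _ ≤ (Finset.univ : Finset (Fin (d - 1) → Option (Fin n))).card := Finset.card_image_le
      _ = (n + 1) ^ (d - 1) := by simp
  have huniv : (Finset.univ : Finset (Fin n → Bool)) ⊆
      C.biUnion (fun c => Finset.univ.filter (fun z : Fin n → Bool => hammingDist z c < d)) := by
    intro z _
    obtain ⟨c, hc, h⟩ := hcov z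
    rw [Finset.mem_biUnion]
    exact ⟨c, hc, by rw [Finset.mem_filter]; exact ⟨Finset.mem_univ _, h⟩⟩
  calc 2 ^ n = (Finset.univ : Finset (Fin n → Bool)).card := by simp
    _ ≤ _ := Finset.card_le_card huniv
    _ ≤ ∑ c ∈ C, (Finset.univ.filter (fun z : Fin n → Bool => hammingDist z c < d)).card :=
        Finset.card_biUnion_le
    _ ≤ ∑ c ∈ C, (n + 1) ^ (d - 1) := Finset.sum_le_sum (fun c _ => hball c)
    _ = C.card * (n + 1) ^ (d - 1) := by simp

/-! ### comparison of `f n` with the limit density -/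

/-- the error scale -/
noncomputable def er (n : ℕ) : ℝ := (n : ℝ) ^ ((2 : ℝ) / 3) * Real.log ((n : ℝ) + 1) ^ ((1 : ℝ) / 3)

lemma f_le_of {n : ℕ} (hn : 1 ≤ n) {D : ℝ}
    (hD : Tendsto (fun L : ℝ => (P n L : ℝ) / L ^ n) atTop (𝓝 D)) {g : ℝ} (hg : 0 < g) {d : ℕ}
    (hd1 : 1 ≤ d) (hd : 1 ≤ (d : ℝ) * g ^ 2) :
    (f n : ℝ) ≤ D * ((1 + g) ^ n * ((n : ℝ) + 1) ^ (d - 1)) := by
  obtain ⟨C, hC, hCc⟩ := exists_code n d hd1
  set s := 1 + g with hs
  have hs0 : 0 < s := by linarith
  have hK : ∀ K : ℕ, 1 ≤ K → (C.card : ℝ) * f n / (2 * s) ^ n ≤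
      (P n (2 * K * s) : ℝ) / (2 * K * s) ^ n := by
    intro K hK
    have h1 := P_code (K := K) hn C hC (s := s) (by linarith)
      (by have : s - 1 = g := by rw [hs]; ring
          rw [this]; exact hd) hK
    have h2 : (C.card : ℝ) * (K : ℝ) ^ n * f n ≤ P n (2 * K * s) := by exact_mod_cast h1
    have hK0 : (0 : ℝ) < K := by exact_mod_cast hK
    rw [div_le_div_iff₀ (by positivity) (by positivity)]
    have h3 : ((2 * K * s) ^ n : ℝ) = (2 * s) ^ n * (K : ℝ) ^ n := by
      rw [← mul_pow]; ring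
    rw [h3]
    calc (C.card : ℝ) * f n * ((2 * s) ^ n * (K : ℝ) ^ n)
        = (C.card : ℝ) * (K : ℝ) ^ n * f n * (2 * s) ^ n := by ring
      _ ≤ _ := mul_le_mul_of_nonneg_right h2 (by positivity)
  have hlim : Tendsto (fun K : ℕ => (P n (2 * K * s) : ℝ) / (2 * K * s) ^ n) atTop (𝓝 D) := by
    have h1 : Tendsto (fun K : ℕ => (2 * (K : ℝ) * s)) atTop atTop := by
      apply Tendsto.atTop_mul_const hs0
      exact Tendsto.const_mul_atTop (by norm_num) tendsto_natCast_atTop_atTop
    exact hD.comp h1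
  have h1 : (C.card : ℝ) * f n / (2 * s) ^ n ≤ D := by
    refine ge_of_tendsto hlim ?_
    filter_upwards [eventually_ge_atTop 1] with K hK1
    exact hK K hK1
  have h2 : (2 : ℝ) ^ n ≤ C.card * ((n : ℝ) + 1) ^ (d - 1) := by exact_mod_cast hCc
  have hf0 : (0 : ℝ) ≤ f n := Nat.cast_nonneg _
  rw [div_le_iff₀ (by positivity)] at h1
  have h3 : (0 : ℝ) < 2 ^ n := by positivity
  have h4 : (2 : ℝ) ^ n * f n ≤ 2 ^ n * (D * (s ^ n * ((n : ℝ) + 1) ^ (d - 1))) := by
    calc (2 : ℝ) ^ n * f n ≤ (C.card * ((n : ℝ) + 1) ^ (d - 1)) * f n :=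
          mul_le_mul_of_nonneg_right h2 hf0
      _ = (C.card * f n) * ((n : ℝ) + 1) ^ (d - 1) := by ring
      _ ≤ (D * (2 * s) ^ n) * ((n : ℝ) + 1) ^ (d - 1) :=
          mul_le_mul_of_nonneg_right h1 (by positivity)
      _ = _ := by rw [mul_pow]; ring
  exact le_of_mul_le_mul_left h4 h3

lemma log_succ_pos {n : ℕ} (hn : 1 ≤ n) : 0 < Real.log ((n : ℝ) + 1) := by
  apply Real.log_pos
  have : (1 : ℝ) ≤ n := by exact_mod_cast hn
  linarith

lemma log_le_er {n : ℕ} (hn : 1 ≤ n) : Real.log ((n : ℝ) + 1) ≤ er n := by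
  have h0 := log_succ_pos hn
  have h1 : Real.log ((n : ℝ) + 1) ≤ n := by
    have := Real.log_le_sub_one_of_pos (show (0 : ℝ) < (n : ℝ) + 1 by positivity)
    linarith
  have h2 : Real.log ((n : ℝ) + 1) = Real.log ((n : ℝ) + 1) ^ ((2 : ℝ) / 3) *
      Real.log ((n : ℝ) + 1) ^ ((1 : ℝ) / 3) := by
    rw [← Real.rpow_add h0]; norm_num
  rw [er]
  conv_lhs => rw [h2]
  exact mul_le_mul_of_nonneg_right (Real.rpow_le_rpow h0.le h1 (by norm_num))
    (Real.rpow_nonneg h0.le _)

lemma er_nonneg (n : ℕ) : 0 ≤ er n := by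
  rw [er]
  have : 0 ≤ Real.log ((n : ℝ) + 1) := Real.log_nonneg (by
    have : (0 : ℝ) ≤ n := Nat.cast_nonneg _
    linarith)
  positivity

lemma f_le_exp {n : ℕ} (hn : 1 ≤ n) {D : ℝ}
    (hD : Tendsto (fun L : ℝ => (P n L : ℝ) / L ^ n) atTop (𝓝 D)) :
    (f n : ℝ) ≤ D * Real.exp (2 * er n) := by
  have hn0 : (0 : ℝ) < n := by exact_mod_cast hn
  have hl := log_succ_pos hn
  set l := Real.log ((n : ℝ) + 1) with hldef
  set g := (l / n) ^ ((1 : ℝ) / 3) with hg
  have hg0 : 0 < g := Real.rpow_pos_of_pos (by positivity) _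
  have hg2 : g ^ 2 = (l / n) ^ ((2 : ℝ) / 3) := by
    rw [hg, ← Real.rpow_natCast, ← Real.rpow_mul (by positivity)]
    norm_num
  have hng : (n : ℝ) * g = er n := by
    rw [hg, er, Real.div_rpow hl.le hn0.le, ← hldef]
    have h1 : (n : ℝ) = (n : ℝ) ^ ((2 : ℝ) / 3) * (n : ℝ) ^ ((1 : ℝ) / 3) := by
      rw [← Real.rpow_add hn0]; norm_num
    have h2 : (n : ℝ) ^ ((1 : ℝ) / 3) ≠ 0 := (Real.rpow_pos_of_pos hn0 _).ne'
    rw [mul_div_assoc']
    rw [div_eq_iff h2]
    conv_lhs => rw [h1]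
    ring
  have hlg : l / g ^ 2 = er n := by
    rw [hg2, er, Real.div_rpow hl.le hn0.le, ← hldef]
    have h1 : l = l ^ ((1 : ℝ) / 3) * l ^ ((2 : ℝ) / 3) := by
      rw [← Real.rpow_add hl]; norm_num
    have h2 : l ^ ((2 : ℝ) / 3) ≠ 0 := (Real.rpow_pos_of_pos hl _).ne'
    have h3 : (n : ℝ) ^ ((2 : ℝ) / 3) ≠ 0 := (Real.rpow_pos_of_pos hn0 _).ne'
    rw [div_div_eq_mul_div, div_eq_iff h2]
    conv_lhs => rw [h1]
    ring
  set d := ⌈1 / g ^ 2⌉₊ with hd
  have hd1 : 1 ≤ d := by
    rw [hd, Nat.one_le_ceil_iff]; positivity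
  have hd2 : 1 / g ^ 2 ≤ d := Nat.le_ceil _
  have hd3 : (d : ℝ) < 1 / g ^ 2 + 1 := Nat.ceil_lt_add_one (by positivity)
  have hdg : 1 ≤ (d : ℝ) * g ^ 2 := by
    rw [div_le_iff₀ (by positivity)] at hd2; exact hd2
  have h1 := f_le_of hn hD hg0 hd1 hdg
  refine h1.trans ?_
  have hD0 : 0 ≤ D := by
    refine ge_of_tendsto hD ?_
    filter_upwards [eventually_gt_atTop 0] with L hL
    positivity
  apply mul_le_mul_of_nonneg_left _ hD0
  have h2 : (1 + g) ^ n ≤ Real.exp (er n) := by
    calc (1 + g) ^ n ≤ (Real.exp g) ^ n :=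
          pow_le_pow_left₀ (by positivity) (by linarith [Real.add_one_le_exp g]) n
      _ = Real.exp (er n) := by rw [← Real.exp_nat_mul, hng]
  have h3 : ((n : ℝ) + 1) ^ (d - 1) ≤ Real.exp (er n) := by
    have h4 : ((n : ℝ) + 1) ^ (d - 1) = Real.exp (((d - 1 : ℕ) : ℝ) * l) := by
      rw [Real.exp_nat_mul, hldef, Real.exp_log (by positivity)]
    rw [h4]
    apply Real.exp_le_exp.2
    rw [← hlg, Nat.cast_sub hd1]
    push_cast
    calc ((d : ℝ) - 1) * l ≤ (1 / g ^ 2) * l :=
          mul_le_mul_of_nonneg_right (by linarith) hl.le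
      _ = l / g ^ 2 := by ring
  calc (1 + g) ^ n * ((n : ℝ) + 1) ^ (d - 1) ≤ Real.exp (er n) * Real.exp (er n) :=
        mul_le_mul h2 h3 (by positivity) (Real.exp_pos _).le
    _ = Real.exp (2 * er n) := by rw [← Real.exp_add]; congr 1; ring

lemma dens_mul_le {n : ℕ} (hn : 1 ≤ n) {D : ℝ}
    (hD : Tendsto (fun L : ℝ => (P n L : ℝ) / L ^ n) atTop (𝓝 D)) :
    D * (Real.sqrt ((n : ℝ) / (2 * ((n : ℝ) + 1))) ^ n * om n) ≤ (n : ℝ) + 1 := by
  set r := Real.sqrt ((n : ℝ) / (2 * ((n : ℝ) + 1))) with hr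
  have h1 : Tendsto (fun L : ℝ => (P n L : ℝ) / L ^ n * (r ^ n * om n)) atTop
      (𝓝 (D * (r ^ n * om n))) := hD.mul_const _
  have h2 : Tendsto (fun L : ℝ => ((n : ℝ) + 1) * (1 + 2 / L) ^ n) atTop
      (𝓝 (((n : ℝ) + 1) * (1 + 0) ^ n)) := by
    apply Tendsto.const_mul
    apply Tendsto.pow
    apply Tendsto.const_add
    exact tendsto_const_nhds.div_atTop tendsto_id
  have h3 : ((n : ℝ) + 1) * (1 + 0) ^ n = (n : ℝ) + 1 := by simp
  rw [h3] at h2
  refine le_of_tendsto_of_tendsto h1 h2 ?_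
  filter_upwards [eventually_gt_atTop 0] with L hL
  obtain ⟨X, hX, hS, hc⟩ := exists_P hn hL.le
  have h4 := card_le hn hL.le hX hS
  rw [hc, ← hr] at h4
  have h5 : (1 + 2 / L) ^ n = (L + 2) ^ n / L ^ n := by
    rw [← div_pow]; congr 1; field_simp
  rw [h5, mul_div_assoc', div_mul_eq_mul_div]
  exact div_le_div_of_nonneg_right h4 (by positivity)

/-- The packing density: `Δ n` is the limit of the proportion of the volume of the cube `[0,L]^n`
covered by `P n L` balls of radius `1/2`. -/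
theorem result :
    ∃ (Δ : ℕ → ℝ) (C : ℝ),
      (∀ n : ℕ, 1 ≤ n →
        Tendsto (fun L : ℝ => (P n L : ℝ) *
          (volume (Metric.ball (0 : EuclideanSpace ℝ (Fin n)) (1 / 2))).toReal / L ^ n)
          atTop (𝓝 (Δ n))) ∧
      (∀ n : ℕ, 1 ≤ n →
        Δ n ≤ f n * (volume (Metric.ball (0 : EuclideanSpace ℝ (Fin n)) (1 / 2))).toReal ∧
        f n * (volume (Metric.ball (0 : EuclideanSpace ℝ (Fin n)) (1 / 2))).toReal ≤
          Δ n * Real.exp (2 * ((n : ℝ) ^ ((2 : ℝ) / 3) *
            Real.log ((n : ℝ) + 1) ^ ((1 : ℝ) / 3)))) ∧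
      (∀ n : ℕ, 1 ≤ n →
        |Real.log (f n) - ((n : ℝ) / 2 * Real.log n -
            (n : ℝ) / 2 * Real.log (Real.pi * Real.exp 1 / 2) + Real.log (Δ n))| ≤
          C * ((n : ℝ) ^ ((2 : ℝ) / 3) * Real.log ((n : ℝ) + 1) ^ ((1 : ℝ) / 3))) ∧
      (∀ n : ℕ, 1 ≤ n →
        -((n : ℝ) / 2 * Real.log (2 * Real.pi * Real.exp 1)) - C * Real.log ((n : ℝ) + 1) ≤
          Real.log (f n) - (n : ℝ) / 2 * Real.log n ∧
        Real.log (f n) - (n : ℝ) / 2 * Real.log n ≤
          -((n : ℝ) / 2 * Real.log (Real.pi * Real.exp 1)) +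
            C * ((n : ℝ) ^ ((2 : ℝ) / 3) * Real.log ((n : ℝ) + 1) ^ ((1 : ℝ) / 3))) := by
  obtain ⟨C1, hC1, hG⟩ := log_Gamma_half
  have hdens : ∀ n : ℕ, ∃ D : ℝ, 1 ≤ n →
      Tendsto (fun L : ℝ => (P n L : ℝ) / L ^ n) atTop (𝓝 D) ∧
      (∀ L : ℝ, 0 < L → D ≤ (P n L : ℝ) / L ^ n) := by
    intro n
    by_cases hn : 1 ≤ n
    · obtain ⟨D, hD⟩ := exists_dens hn
      exact ⟨D, fun _ => hD⟩
    · exact ⟨0, fun h => absurd h hn⟩
  choose D hD using hdens
  have hvol : ∀ n : ℕ, 1 ≤ n →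
      (volume (Metric.ball (0 : EuclideanSpace ℝ (Fin n)) (1 / 2))).toReal =
        (1 / 2) ^ n * om n := by
    intro n hn
    rw [volume_ball_eq hn _ (by norm_num), ENNReal.toReal_ofReal]
    exact mul_nonneg (by positivity) (om_pos n).le
  have hlow : ∀ n : ℕ, 1 ≤ n → D n ≤ f n := by
    intro n hn
    have := (hD n hn).2 1 one_pos
    simpa [f] using this
  have hup : ∀ n : ℕ, 1 ≤ n → (f n : ℝ) ≤ D n * Real.exp (2 * er n) :=
    fun n hn => f_le_exp hn (hD n hn).1
  have hfpos : ∀ n : ℕ, 1 ≤ n → (0 : ℝ) < f n := by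
    intro n hn
    have h1 := one_le_f_mul hn
    have h2 := om_pos n
    by_contra h
    push Not at h
    nlinarith
  have hDpos : ∀ n : ℕ, 1 ≤ n → 0 < D n := by
    intro n hn
    have h1 := hup n hn
    have h2 := hfpos n hn
    by_contra h
    push Not at h
    have := mul_nonpos_of_nonpos_of_nonneg h (Real.exp_pos (2 * er n)).le
    linarith
  -- logarithm of the volume of the unit ball
  have hom : ∀ n : ℕ, 1 ≤ n →
      |Real.log (om n) + ((n : ℝ) / 2 * Real.log n - (n : ℝ) / 2 * Real.log 2 - (n : ℝ) / 2 -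
        (n : ℝ) / 2 * Real.log Real.pi)| ≤ C1 * Real.log ((n : ℝ) + 1) := by
    intro n hn
    have hn0 : (0 : ℝ) < n := by exact_mod_cast hn
    have h1 := hG n hn
    have h2 : Real.log (om n) = (n : ℝ) / 2 * Real.log Real.pi -
        Real.log (Real.Gamma ((n : ℝ) / 2 + 1)) := by
      rw [om, Real.log_div (by positivity) (Real.Gamma_pos_of_pos (by positivity)).ne',
        Real.log_pow, Real.log_sqrt Real.pi_pos.le]
      ring
    have h3 : Real.log ((n : ℝ) / 2) = Real.log n - Real.log 2 :=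
      Real.log_div hn0.ne' (by norm_num)
    rw [h3] at h1
    rw [h2, abs_sub_comm] at *
    refine le_trans (le_of_eq ?_) h1
    congr 1
    ring
  have hlogf : ∀ n : ℕ, 1 ≤ n → Real.log (D n) ≤ Real.log (f n) ∧
      Real.log (f n) ≤ Real.log (D n) + 2 * er n := by
    intro n hn
    refine ⟨Real.log_le_log (hDpos n hn) (hlow n hn), ?_⟩
    have := Real.log_le_log (hfpos n hn) (hup n hn)
    rwa [Real.log_mul (hDpos n hn).ne' (Real.exp_pos _).ne', Real.log_exp] at this
  refine ⟨fun n => D n * ((1 / 2) ^ n * om n), C1 + 4, ?_, ?_, ?_, ?_⟩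
  · intro n hn
    rw [hvol n hn]
    have := (hD n hn).1.mul_const ((1 / 2) ^ n * om n)
    refine this.congr (fun L => ?_)
    ring
  · intro n hn
    rw [hvol n hn]
    have hv : 0 ≤ (1 / 2 : ℝ) ^ n * om n := mul_nonneg (by positivity) (om_pos n).le
    refine ⟨mul_le_mul_of_nonneg_right (hlow n hn) hv, ?_⟩
    have := mul_le_mul_of_nonneg_right (hup n hn) hv
    rw [er] at this
    linarith
  · intro n hn
    have hn0 : (0 : ℝ) < n := by exact_mod_cast hn
    have h1 := abs_le.1 (hom n hn)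
    have h2 := hlogf n hn
    have h3 := log_le_er hn
    have h4 := er_nonneg n
    have h5 : Real.log (D n * ((1 / 2) ^ n * om n)) = Real.log (D n) - n * Real.log 2 +
        Real.log (om n) := by
      rw [Real.log_mul (hDpos n hn).ne' (mul_pos (by positivity) (om_pos n)).ne',
        Real.log_mul (by positivity) (om_pos n).ne', Real.log_pow, one_div, Real.log_inv]
      ring
    have h6 : Real.log (Real.pi * Real.exp 1 / 2) = Real.log Real.pi + 1 - Real.log 2 := by
      rw [Real.log_div (by positivity) (by norm_num), Real.log_mul Real.pi_pos.ne'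
        (Real.exp_pos _).ne', Real.log_exp]
    rw [h5, h6]
    have h7 : C1 * Real.log ((n : ℝ) + 1) ≤ C1 * er n := mul_le_mul_of_nonneg_left h3 hC1.le
    have h8 : er n = (n : ℝ) ^ ((2 : ℝ) / 3) * Real.log ((n : ℝ) + 1) ^ ((1 : ℝ) / 3) := rfl
    rw [← h8, abs_le]
    constructor
    · nlinarith [h1.1, h1.2, h2.1, h2.2]
    · nlinarith [h1.1, h1.2, h2.1, h2.2]
  · intro n hn
    have hn0 : (0 : ℝ) < n := by exact_mod_cast hn
    have h1 := abs_le.1 (hom n hn)
    have h2 := hlogf n hn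
    have h3 := log_le_er hn
    have h4 := er_nonneg n
    have hl2 : (1 : ℝ) / 2 ≤ Real.log ((n : ℝ) + 1) := by
      have h5 : Real.log 2 ≤ Real.log ((n : ℝ) + 1) := by
        apply Real.log_le_log (by norm_num)
        have : (1 : ℝ) ≤ n := by exact_mod_cast hn
        linarith
      linarith [Real.log_two_gt_d9]
    have h7 : C1 * Real.log ((n : ℝ) + 1) ≤ C1 * er n := mul_le_mul_of_nonneg_left h3 hC1.le
    have h8 : er n = (n : ℝ) ^ ((2 : ℝ) / 3) * Real.log ((n : ℝ) + 1) ^ ((1 : ℝ) / 3) := rfl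
    rw [← h8]
    constructor
    · have h9 : 0 ≤ Real.log (f n) + Real.log (om n) := by
        rw [← Real.log_mul (hfpos n hn).ne' (om_pos n).ne']
        exact Real.log_nonneg (one_le_f_mul hn)
      have h10 : Real.log (2 * Real.pi * Real.exp 1) = Real.log 2 + Real.log Real.pi + 1 := by
        rw [Real.log_mul (by positivity) (Real.exp_pos _).ne', Real.log_mul (by norm_num)
          Real.pi_pos.ne', Real.log_exp]
      rw [h10]
      nlinarith [h1.1, h1.2]
    · have h11 := dens_mul_le hn (hD n hn).1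
      set r := Real.sqrt ((n : ℝ) / (2 * ((n : ℝ) + 1))) with hr
      have hr0 : 0 < r := Real.sqrt_pos.2 (by positivity)
      have h12 : Real.log (D n) + (n * Real.log r + Real.log (om n)) ≤
          Real.log ((n : ℝ) + 1) := by
        have := Real.log_le_log (mul_pos (hDpos n hn) (mul_pos (pow_pos hr0 _) (om_pos n))) h11
        rwa [Real.log_mul (hDpos n hn).ne' (mul_pos (pow_pos hr0 _) (om_pos n)).ne',
          Real.log_mul (pow_pos hr0 _).ne' (om_pos n).ne', Real.log_pow] at this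
      have h13 : Real.log r = (Real.log n - Real.log 2 - Real.log ((n : ℝ) + 1)) / 2 := by
        rw [hr, Real.log_sqrt (by positivity), Real.log_div hn0.ne' (by positivity),
          Real.log_mul (by norm_num) (by positivity)]
        ring
      have h14 : (n : ℝ) * (Real.log ((n : ℝ) + 1) - Real.log n) ≤ 1 := by
        rw [← Real.log_div (by positivity) hn0.ne']
        have h15 := Real.log_le_sub_one_of_pos (show (0 : ℝ) < ((n : ℝ) + 1) / n by positivity)
        have h16 : ((n : ℝ) + 1) / n - 1 = 1 / n := by field_simp; ring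
        rw [h16] at h15
        calc (n : ℝ) * Real.log (((n : ℝ) + 1) / n) ≤ n * (1 / n) :=
              mul_le_mul_of_nonneg_left h15 hn0.le
          _ = 1 := by field_simp
      have h17 : Real.log (Real.pi * Real.exp 1) = Real.log Real.pi + 1 := by
        rw [Real.log_mul Real.pi_pos.ne' (Real.exp_pos _).ne', Real.log_exp]
      rw [h17]
      rw [h13] at h12
      nlinarith [h1.1, h1.2, h2.1, h2.2]

end Pool.Agent.Results.MP_08c4cb_co.SpherePacking
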